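import Pool.Agent.Helper53.Comp.GoalsP

/-!
# P5: coordinates and the linear form of a lifted cone
-/

namespace Mono

namespace Comp

namespace P5

open Finset

variable {n k : ℕ}

theorem indep_of_sum {F : Finset (Fin n → ℤ)}
    (h : ∀ c : (Fin n → ℤ) → ℝ, ∑ u ∈ F, c u • toR u = 0 → ∀ u ∈ F, c u = 0) : Indep F := by
  classical
  unfold Indep
  rw [Fintype.linearIndependent_iff]
  intro g hg i
  have h1 := h (fun u => if hu : u ∈ F then g ⟨u, hu⟩ else 0) (by
    rw [← Finset.sum_coe_sort F, ← hg]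
    refine Finset.sum_congr rfl fun u _ => ?_
    simp) i.1 i.2
  simpa using h1

theorem mem_sel {blk : Fin n → Fin k} {c : Fin k → Fin n} (hc : c ∈ sel blk) (i : Fin k) :
    blk (c i) = i := by
  simp only [sel, mem_filter, mem_univ, true_and] at hc
  exact hc i

theorem lift_inj {blk : Fin n → Fin k} {N : Fin n → ℕ} {c : Fin k → Fin n}
    (hN : ∀ j, 0 < N j) (hc : ∀ i, blk (c i) = i) : Function.Injective (lift blk N) := by
  intro u v h
  funext i
  have h1 := congrFun h (c i)
  simp only [lift, hc] at h1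
  have h2 : (N (c i) : ℤ) ≠ 0 := by exact_mod_cast (hN (c i)).ne'
  exact mul_left_cancel₀ h2 h1

/-- A lift equal to a basis vector. -/
theorem lift_eq_single {blk : Fin n → Fin k} {N : Fin n → ℕ} {c : Fin k → Fin n}
    (hN : ∀ j, 0 < N j) (hc : ∀ i, blk (c i) = i) {u : Fin k → ℤ} {j : Fin n}
    (h : lift blk N u = Pi.single j 1) : u = Pi.single (blk j) 1 ∧ ∀ j', blk j' = blk j → j' = j := by
  have h1 : (N j : ℤ) * u (blk j) = 1 := by
    have := congrFun h j
    simpa [lift] using this
  have hne : u (blk j) ≠ 0 := by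
    intro h0
    rw [h0, mul_zero] at h1
    exact zero_ne_one h1
  have hpos : (0 : ℤ) < (N j : ℤ) := by exact_mod_cast hN j
  have h2 : u (blk j) = 1 := by
    rcases Int.eq_one_or_neg_one_of_mul_eq_one' h1 with h3 | h3
    · exact h3.2
    · rw [h3.1] at hpos
      norm_num at hpos
  refine ⟨?_, fun j' hj' => ?_⟩
  · funext i
    by_cases hi : i = blk j
    · rw [hi, h2]
      simp
    · have h3 := congrFun h (c i)
      have hcj : c i ≠ j := fun e => hi (by rw [← e, hc])
      simp only [lift, hc, Pi.single_apply, hcj, if_false] at h3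
      have h4 : (N (c i) : ℤ) ≠ 0 := by exact_mod_cast (hN (c i)).ne'
      rw [Pi.single_apply, if_neg hi]
      exact (mul_eq_zero.1 h3).resolve_left h4
  · by_contra hne'
    have h3 := congrFun h j'
    simp only [lift, hj', h2, Pi.single_apply, hne', if_false, mul_one] at h3
    have h4 : (N j' : ℤ) ≠ 0 := by exact_mod_cast (hN j').ne'
    exact h4 h3

section cone

variable {A Z : Finset (Fin k → ℤ)} {Φ : Fan k} {blk : Fin n → Fin k} {N : Fin n → ℕ}
  {F : Finset (Fin k → ℤ)} {c : Fin k → Fin n}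

theorem disj (hN : ∀ j, 0 < N j) (hc : ∀ i, blk (c i) = i) :
    Disjoint ((F \ Z).image (lift blk N))
      ((coneJ blk Z F c).image (fun j => (Pi.single j 1 : Fin n → ℤ))) := by
  classical
  rw [Finset.disjoint_left]
  intro w hw hw'
  rw [mem_image] at hw hw'
  obtain ⟨u, hu, rfl⟩ := hw
  obtain ⟨j, hj, hj'⟩ := hw'
  obtain ⟨h1, h2⟩ := lift_eq_single hN hc hj'.symm
  simp only [coneJ, mem_filter, mem_univ, true_and] at hj
  rcases hj with h3 | h3
  · rw [← h1] at h3
    exact (mem_sdiff.1 hu).2 (mem_inter.1 h3).2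
  · exact h3 (h2 (c (blk j)) (hc _)).symm

theorem single_inj : Function.Injective (fun j : Fin n => (Pi.single j 1 : Fin n → ℤ)) := by
  intro i j h
  by_contra hne
  have := congrFun h i
  simp [hne] at this

theorem sum_cone (hN : ∀ j, 0 < N j) (hc : ∀ i, blk (c i) = i) {M : Type*} [AddCommMonoid M]
    (f : (Fin n → ℤ) → M) :
    ∑ w ∈ liftCone blk N Z F c, f w =
      ∑ u ∈ F \ Z, f (lift blk N u) + ∑ j ∈ coneJ blk Z F c, f (Pi.single j 1) := by
  unfold liftCone
  rw [Finset.sum_union (disj hN hc), Finset.sum_image fun a _ b _ h => lift_inj hN hc h,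
    Finset.sum_image fun a _ b _ h => single_inj h]

/-- The value at the coordinate `j` of a combination of the generators. -/
theorem comb_apply (hN : ∀ j, 0 < N j) (hc : ∀ i, blk (c i) = i) (a : (Fin n → ℤ) → ℝ)
    (j : Fin n) :
    (∑ w ∈ liftCone blk N Z F c, a w • toR w) j =
      (N j : ℝ) * ∑ u ∈ F \ Z, a (lift blk N u) * (u (blk j) : ℝ) +
        (if j ∈ coneJ blk Z F c then a (Pi.single j 1) else 0) := by
  classical
  rw [sum_cone hN hc (fun w => a w • toR w), Pi.add_apply, Finset.sum_apply, Finset.sum_apply,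
    Finset.mul_sum]
  congr 1
  · refine Finset.sum_congr rfl fun u _ => ?_
    simp only [Pi.smul_apply, toR_apply, lift, smul_eq_mul]
    push_cast
    ring
  · rw [← Finset.sum_ite_eq' (coneJ blk Z F c) j (fun j => a (Pi.single j 1))]
    refine Finset.sum_congr rfl fun j' _ => ?_
    simp only [Pi.smul_apply, toR_apply, smul_eq_mul]
    by_cases h : j' = j
    · subst h
      simp
    · rw [if_neg h, Pi.single_apply, if_neg (Ne.symm h)]
      simp

/-- The blocks `i` with `e_i ∈ F ∩ Z`. -/
noncomputable def KK (Z F : Finset (Fin k → ℤ)) : Finset (Fin k) :=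
  univ.filter (fun i => (Pi.single i 1 : Fin k → ℤ) ∈ F ∩ Z)

theorem inter_eq (hZ : ∀ z ∈ Z, ∃ i : Fin k, z = Pi.single i 1) :
    F ∩ Z = (KK Z F).image (fun i => (Pi.single i 1 : Fin k → ℤ)) := by
  classical
  ext z
  simp only [KK, mem_image, mem_filter, mem_univ, true_and]
  constructor
  · intro hz
    obtain ⟨i, rfl⟩ := hZ z (mem_inter.1 hz).2
    exact ⟨i, hz, rfl⟩
  · rintro ⟨i, hi, rfl⟩
    exact hi

/-- The key point: an expansion outside `K` gives the coordinates. -/
theorem expand (hF : Indep F) (hZ : ∀ z ∈ Z, ∃ i : Fin k, z = Pi.single i 1)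
    (x : Fin k → ℝ) (d : (Fin k → ℤ) → ℝ)
    (h : ∀ i, i ∉ KK Z F → ∑ u ∈ F \ Z, d u * (u i : ℝ) = x i) :
    (∀ u ∈ F \ Z, crd F x u = d u) ∧
    ∀ i ∈ KK Z F, crd F x (Pi.single i 1) = x i - ∑ u ∈ F \ Z, d u * (u i : ℝ) := by
  classical
  -- the coefficient function
  set e : (Fin k → ℤ) → ℝ := fun w => if w ∈ Z then
    ∑ i ∈ KK Z F, (if w = Pi.single i 1 then x i - ∑ u ∈ F \ Z, d u * (u i : ℝ) else 0)
    else d w with he
  have he1 : ∀ u ∈ F \ Z, e u = d u := by
    intro u hu
    simp only [he, (mem_sdiff.1 hu).2, if_false]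
  have he2 : ∀ i ∈ KK Z F, e (Pi.single i 1) = x i - ∑ u ∈ F \ Z, d u * (u i : ℝ) := by
    intro i hi
    have hi' := hi
    simp only [KK, mem_filter, mem_univ, true_and, mem_inter] at hi'
    simp only [he, hi'.2, if_true]
    rw [Finset.sum_eq_single_of_mem i hi]
    · simp
    · intro j _ hj
      rw [if_neg]
      intro h1
      exact hj (single_inj h1).symm
  have hx : x = ∑ u ∈ F, e u • toR u := by
    rw [← Finset.sum_sdiff (Finset.inter_subset_left (s₁ := F) (s₂ := Z)),
      Finset.sdiff_inter_self_left]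
    rw [Finset.sum_congr rfl fun u hu => by rw [he1 u hu], inter_eq (F := F) hZ,
      Finset.sum_image fun a _ b _ h => single_inj h,
      Finset.sum_congr (s₁ := KK Z F) rfl fun i hi => by rw [he2 i hi]]
    funext i
    rw [Pi.add_apply, Finset.sum_apply, Finset.sum_apply]
    have h3 : ∑ j ∈ KK Z F, ((x j - ∑ u ∈ F \ Z, d u * (u j : ℝ)) •
        toR (Pi.single j 1 : Fin k → ℤ)) i =
        if i ∈ KK Z F then x i - ∑ u ∈ F \ Z, d u * (u i : ℝ) else 0 := by
      rw [← Finset.sum_ite_eq' (KK Z F) i (fun j => x j - ∑ u ∈ F \ Z, d u * (u j : ℝ))]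
      refine Finset.sum_congr rfl fun j _ => ?_
      simp only [Pi.smul_apply, toR_apply, smul_eq_mul]
      by_cases hij : j = i
      · subst hij
        simp
      · rw [if_neg hij, Pi.single_apply, if_neg (Ne.symm hij)]
        simp
    rw [h3]
    have h4 : ∑ u ∈ F \ Z, (d u • toR u) i = ∑ u ∈ F \ Z, d u * (u i : ℝ) :=
      Finset.sum_congr rfl fun u _ => by simp
    rw [h4]
    split_ifs with hi
    · ring
    · rw [h i hi, add_zero]
  refine ⟨fun u hu => ?_, fun i hi => ?_⟩
  · rw [crd_eq hF hx (mem_sdiff.1 hu).1, he1 u hu]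
  · have hi' := hi
    simp only [KK, mem_filter, mem_univ, true_and, mem_inter] at hi'
    rw [crd_eq hF hx hi'.1, he2 i hi]

theorem notMem_coneJ (hc : ∀ i, blk (c i) = i) {i : Fin k} (hi : i ∉ KK Z F) :
    c i ∉ coneJ blk Z F c := by
  intro h
  simp only [coneJ, mem_filter, mem_univ, true_and, hc] at h
  rcases h with h | h
  · apply hi
    simp only [KK, mem_filter, mem_univ, true_and]
    exact h
  · exact h rfl

theorem cone_indep (hN : ∀ j, 0 < N j) (hc : ∀ i, blk (c i) = i) (hF : Indep F)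
    (hZ : ∀ z ∈ Z, ∃ i : Fin k, z = Pi.single i 1) : Indep (liftCone blk N Z F c) := by
  classical
  refine indep_of_sum fun a ha => ?_
  have h0 : ∀ j, (N j : ℝ) * ∑ u ∈ F \ Z, a (lift blk N u) * (u (blk j) : ℝ) +
        (if j ∈ coneJ blk Z F c then a (Pi.single j 1) else 0) = 0 := by
    intro j
    rw [← comb_apply hN hc a j, ha]
    rfl
  have h1 : ∀ i, i ∉ KK Z F → ∑ u ∈ F \ Z, a (lift blk N u) * (u i : ℝ) = (0 : Fin k → ℝ) i := by
    intro i hi
    have h2 := h0 (c i)
    rw [if_neg (notMem_coneJ hc hi), add_zero, hc] at h2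
    have h3 : (N (c i) : ℝ) ≠ 0 := by exact_mod_cast (hN (c i)).ne'
    exact (mul_eq_zero.1 h2).resolve_left h3
  obtain ⟨h2, h3⟩ := expand hF hZ 0 (fun u => a (lift blk N u)) h1
  have hz : ∀ u, crd F (0 : Fin k → ℝ) u = 0 := by
    intro u
    have : IsCrd F (0 : Fin k → ℝ) 0 := ⟨fun _ _ => rfl, by simp⟩
    rw [crd_unique hF this]
    rfl
  have h4 : ∀ u ∈ F \ Z, a (lift blk N u) = 0 := fun u hu => by rw [← h2 u hu, hz]
  intro w hw
  unfold liftCone at hw
  rw [mem_union, mem_image, mem_image] at hw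
  rcases hw with ⟨u, hu, rfl⟩ | ⟨j, hj, rfl⟩
  · exact h4 u hu
  · have h5 := h0 j
    rw [if_pos hj, Finset.sum_eq_zero (fun u hu => by rw [h4 u hu, zero_mul]), mul_zero,
      zero_add] at h5
    exact h5

theorem cone_card (hN : ∀ j, 0 < N j) (hc : ∀ i, blk (c i) = i) (hF : F.card = k)
    (hZ : ∀ z ∈ Z, ∃ i : Fin k, z = Pi.single i 1) : (liftCone blk N Z F c).card = n := by
  classical
  unfold liftCone
  rw [Finset.card_union_of_disjoint (disj hN hc), Finset.card_image_of_injective _ (lift_inj hN hc),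
    Finset.card_image_of_injective _ single_inj]
  have h1 : (coneJ blk Z F c)ᶜ = (KK Z F)ᶜ.image c := by
    ext j
    simp only [mem_compl, mem_image]
    constructor
    · intro hj
      simp only [coneJ, mem_filter, mem_univ, true_and, not_or, not_not] at hj
      refine ⟨blk j, ?_, hj.2.symm⟩
      simp only [KK, mem_filter, mem_univ, true_and]
      exact hj.1
    · rintro ⟨i, hi, rfl⟩
      exact notMem_coneJ hc hi
  have hcinj : Function.Injective c := fun i j h => by rw [← hc i, h, hc j]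
  have h2 := Finset.card_add_card_compl (coneJ blk Z F c)
  rw [h1, Finset.card_image_of_injective _ hcinj] at h2
  have h3 := Finset.card_add_card_compl (KK Z F)
  have h4 : (F ∩ Z).card = (KK Z F).card := by
    rw [inter_eq (F := F) hZ, Finset.card_image_of_injective _ single_inj]
  have h5 := Finset.card_sdiff_add_card_inter F Z
  simp only [Fintype.card_fin] at h2 h3
  omega

theorem cone_sdiff (hN : ∀ j, 0 < N j) (hc : ∀ i, blk (c i) = i) :
    liftCone blk N Z F c \ liftZ blk Z = (F \ Z).image (lift blk N) := by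
  classical
  ext w
  constructor
  · intro hw
    rw [mem_sdiff] at hw
    obtain ⟨hw1, hw2⟩ := hw
    unfold liftCone at hw1
    rw [mem_union] at hw1
    rcases hw1 with h | h
    · exact h
    · exfalso
      apply hw2
      rw [mem_image] at h
      obtain ⟨j, hj, rfl⟩ := h
      unfold liftZ
      refine mem_image_of_mem _ ?_
      simp only [coneJ, mem_filter, mem_univ, true_and] at hj
      simp only [zeroJ, mem_filter, mem_univ, true_and]
      rcases hj with hj | hj
      · exact Or.inl (mem_inter.1 hj).2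
      · exact Or.inr ⟨c (blk j), Ne.symm hj, hc _⟩
  · intro hw
    rw [mem_sdiff]
    refine ⟨by unfold liftCone; exact mem_union_left _ hw, fun h => ?_⟩
    unfold liftZ at h
    rw [mem_image] at h hw
    obtain ⟨u, hu, rfl⟩ := hw
    obtain ⟨j, hj, hj'⟩ := h
    obtain ⟨h1, h2⟩ := lift_eq_single hN hc hj'.symm
    simp only [zeroJ, mem_filter, mem_univ, true_and] at hj
    rcases hj with h3 | ⟨j', h3, h4⟩
    · rw [← h1] at h3
      exact (mem_sdiff.1 hu).2 h3
    · exact h3 (h2 j' h4)

end cone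

end P5

open P5 Finset in
theorem liftCrd : LiftCrd := by
  classical
  intro n k A Z Φ hTri blk N _ hN F hFm c hcs ρ
  have hc : ∀ i, blk (c i) = i := mem_sel hcs
  have hF := Φ.mx_indep F hFm
  have hFc := Φ.mx_card F hFm
  have hZ : ∀ z ∈ Z, ∃ i : Fin k, z = Pi.single i 1 := hTri.2.2.2.2.2.1.2.1
  have hI := cone_indep (N := N) hN hc hF hZ
  have hC := cone_card (N := N) hN hc hFc hZ
  have hS := cone_sdiff (Z := Z) (F := F) (N := N) hN hc
  set y : Fin n → ℝ := fun j => (N j : ℝ) * ρ j with hy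
  set x : Fin k → ℝ := fun i => ρ (c i) with hx
  have h0 : ∀ j, (N j : ℝ) * ∑ u ∈ F \ Z, crd (liftCone blk N Z F c) y (lift blk N u) *
      (u (blk j) : ℝ) +
        (if j ∈ coneJ blk Z F c then crd (liftCone blk N Z F c) y (Pi.single j 1) else 0) =
        (N j : ℝ) * ρ j := by
    intro j
    rw [← comb_apply hN hc (crd (liftCone blk N Z F c) y) j, sum_crd hI hC]
  have h1 : ∀ i, i ∉ KK Z F →
      ∑ u ∈ F \ Z, crd (liftCone blk N Z F c) y (lift blk N u) * (u i : ℝ) = x i := by
    intro i hi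
    have h2 := h0 (c i)
    rw [if_neg (notMem_coneJ hc hi), add_zero, hc] at h2
    have h3 : (N (c i) : ℝ) ≠ 0 := by exact_mod_cast (hN (c i)).ne'
    exact mul_left_cancel₀ h3 h2
  obtain ⟨h2, h3⟩ := expand hF hZ x (fun u => crd (liftCone blk N Z F c) y (lift blk N u)) h1
  refine ⟨hI, hC, hS, fun u hu => (h2 u hu).symm, fun j hj => ?_, ?_⟩
  · have h4 := h0 j
    rw [if_pos hj] at h4
    by_cases hK : (Pi.single (blk j) 1 : Fin k → ℤ) ∈ F ∩ Z
    · rw [if_pos hK]
      have hK' : blk j ∈ KK Z F := by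
        simp only [KK, mem_filter, mem_univ, true_and]
        exact hK
      rw [h3 _ hK']
      simp only [hx] at h4 ⊢
      linear_combination h4
    · rw [if_neg hK]
      have hK' : blk j ∉ KK Z F := by
        simp only [KK, mem_filter, mem_univ, true_and]
        exact hK
      have h5 := h1 _ hK'
      rw [h5] at h4
      simp only [hx] at h4
      linear_combination h4
  · unfold psi
    rw [hS, Finset.sum_image fun a _ b _ h => lift_inj hN hc h]
    exact Finset.sum_congr rfl fun u hu => (h2 u hu).symm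

end Comp

end Mono
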