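import Pool.Agent.Helper53.Comp.GoalsC

/-!
# C6: number of branches, the eigenvalue `1`, one branch
-/

namespace Mono

namespace Comp

namespace C6

open Finset

/-! ### Regular rational functions at `-1` -/

/-- `f` is regular at `-1`. -/
def Reg (f : RatFunc ℂ) : Prop := f.denom.eval (-1) ≠ 0

theorem Reg.of_dvd {f : RatFunc ℂ} {p : Polynomial ℂ} (h : f.denom ∣ p) (hp : p.eval (-1) ≠ 0) :
    Reg f := by
  intro h0
  obtain ⟨q, hq⟩ := h
  apply hp
  rw [hq, Polynomial.eval_mul, h0, zero_mul]

theorem Reg.add {f g : RatFunc ℂ} (hf : Reg f) (hg : Reg g) : Reg (f + g) :=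
  Reg.of_dvd (RatFunc.denom_add_dvd f g) (by
    rw [Polynomial.eval_mul]
    exact mul_ne_zero hf hg)

theorem Reg.mul {f g : RatFunc ℂ} (hf : Reg f) (hg : Reg g) : Reg (f * g) :=
  Reg.of_dvd (RatFunc.denom_mul_dvd f g) (by
    rw [Polynomial.eval_mul]
    exact mul_ne_zero hf hg)

theorem reg_C (a : ℂ) : Reg (RatFunc.C a) := by
  unfold Reg
  rw [RatFunc.denom_C]
  simp

theorem reg_zero : Reg 0 := by
  have := reg_C 0
  rwa [map_zero] at this

theorem reg_one : Reg 1 := by
  have := reg_C 1
  rwa [map_one] at this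

theorem reg_poly (p : Polynomial ℂ) : Reg (algebraMap (Polynomial ℂ) (RatFunc ℂ) p) := by
  unfold Reg
  rw [RatFunc.denom_algebraMap]
  simp

theorem reg_X1 : Reg (RatFunc.X + 1) := by
  have := reg_poly (Polynomial.X + 1)
  rwa [map_add, map_one, RatFunc.algebraMap_X] at this

theorem reg_inv {a b : ℂ} (h : b ≠ a) : Reg (1 / (RatFunc.C a * RatFunc.X + RatFunc.C b)) := by
  have h1 : (1 / (RatFunc.C a * RatFunc.X + RatFunc.C b) : RatFunc ℂ) =
      algebraMap (Polynomial ℂ) (RatFunc ℂ) 1 /
        algebraMap (Polynomial ℂ) (RatFunc ℂ) (Polynomial.C a * Polynomial.X + Polynomial.C b) := by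
    rw [map_add, map_mul, map_one, RatFunc.algebraMap_X, RatFunc.algebraMap_C,
      RatFunc.algebraMap_C]
  rw [h1]
  refine Reg.of_dvd (RatFunc.denom_div_dvd _ _) ?_
  simp only [Polynomial.eval_add, Polynomial.eval_mul, Polynomial.eval_C, Polynomial.eval_X]
  intro h0
  apply h
  linear_combination h0

theorem reg_pole {a : ℂ} (h : a ≠ 0) :
    Reg ((RatFunc.X + 1) * (1 / (RatFunc.C a * RatFunc.X + RatFunc.C a))) := by
  have hX : (RatFunc.X + 1 : RatFunc ℂ) ≠ 0 := by
    intro h0
    have h1 : algebraMap (Polynomial ℂ) (RatFunc ℂ) (Polynomial.X + 1) =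
        algebraMap (Polynomial ℂ) (RatFunc ℂ) 0 := by
      rw [map_add, map_one, RatFunc.algebraMap_X, map_zero, h0]
    have h2 := RatFunc.algebraMap_injective ℂ h1
    have h3 := congrArg (Polynomial.eval 0) h2
    simp at h3
  have hC : (RatFunc.C a : RatFunc ℂ) ≠ 0 := by
    rwa [Ne, map_eq_zero]
  have h1 : (RatFunc.X + 1) * (1 / (RatFunc.C a * RatFunc.X + RatFunc.C a)) =
      RatFunc.C a⁻¹ := by
    rw [map_inv₀]
    have : (RatFunc.C a * RatFunc.X + RatFunc.C a : RatFunc ℂ) = RatFunc.C a * (RatFunc.X + 1) := by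
      ring
    rw [this]
    field_simp
  rw [h1]
  exact reg_C _

/-- A factor. -/
noncomputable def fac (q : ℕ × ℕ) : RatFunc ℂ :=
  1 / (RatFunc.C (q.1 : ℂ) * RatFunc.X + RatFunc.C (q.2 : ℂ))

theorem reg_fac {q : ℕ × ℕ} (h : q.1 ≠ q.2) : Reg (fac q) :=
  reg_inv (by
    intro e
    apply h
    exact_mod_cast e.symm)

theorem reg_X1_fac {q : ℕ × ℕ} (h : 0 < q.1) : Reg ((RatFunc.X + 1) * fac q) := by
  by_cases h1 : q.1 = q.2
  · unfold fac
    rw [← h1]
    exact reg_pole (by exact_mod_cast h.ne')
  · exact reg_X1.mul (reg_fac h1)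

theorem reg_X1_fac2 {q r : ℕ × ℕ} (hq : 0 < q.1) (hr : 0 < r.1)
    (h : ¬ (q.1 = q.2 ∧ r.1 = r.2)) : Reg ((RatFunc.X + 1) * (fac q * fac r)) := by
  by_cases h1 : q.1 = q.2
  · rw [← mul_assoc]
    exact (reg_X1_fac hq).mul (reg_fac fun h2 => h ⟨h1, h2⟩)
  · rw [mul_left_comm]
    exact (reg_fac h1).mul (reg_X1_fac hr)

theorem reg_sum {α : Type*} (l : List α) (f : α → RatFunc ℂ)
    (h : ∀ t ∈ l, Reg ((RatFunc.X + 1) * f t)) : Reg ((RatFunc.X + 1) * (l.map f).sum) := by
  induction l with
  | nil => simpa using reg_zero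
  | cons a l ih =>
    rw [List.map_cons, List.sum_cons, mul_add]
    exact (h a (by simp)).add (ih fun t ht => h t (by simp [ht]))

/-- If `(X + 1) f` is regular at `-1`, then `-1` is at most a simple root of the denominator. -/
theorem simple_of_reg {f : RatFunc ℂ} (h : Reg ((RatFunc.X + 1) * f)) :
    f.denom.rootMultiplicity (-1) ≤ 1 := by
  by_contra hlt
  have h2 : 2 ≤ f.denom.rootMultiplicity (-1) := by omega
  rw [Polynomial.le_rootMultiplicity_iff (RatFunc.denom_ne_zero f)] at h2
  set g := (RatFunc.X + 1) * f with hg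
  have hX : Polynomial.X - Polynomial.C (-1 : ℂ) = Polynomial.X + 1 := by
    simp
  rw [hX] at h2
  obtain ⟨d, hd⟩ := h2
  -- the polynomial identity
  have hinj := RatFunc.algebraMap_injective ℂ
  have hden : (algebraMap (Polynomial ℂ) (RatFunc ℂ) f.denom) ≠ 0 := by
    rw [Ne, map_eq_zero_iff _ hinj]
    exact RatFunc.denom_ne_zero f
  have hden' : (algebraMap (Polynomial ℂ) (RatFunc ℂ) g.denom) ≠ 0 := by
    rw [Ne, map_eq_zero_iff _ hinj]
    exact RatFunc.denom_ne_zero g
  have key : (Polynomial.X + 1) * f.num * g.denom = g.num * f.denom := by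
    apply hinj
    rw [map_mul, map_mul, map_mul, map_add, map_one, RatFunc.algebraMap_X]
    have h3 : (algebraMap (Polynomial ℂ) (RatFunc ℂ) f.num) =
        f * algebraMap (Polynomial ℂ) (RatFunc ℂ) f.denom := by
      conv_rhs => rw [← RatFunc.num_div_denom f]
      rw [RatFunc.num_div_denom f]
      conv_rhs => rw [← RatFunc.num_div_denom f]
      field_simp
      rw [RatFunc.num_div_denom f]
    have h4 : (algebraMap (Polynomial ℂ) (RatFunc ℂ) g.num) =
        g * algebraMap (Polynomial ℂ) (RatFunc ℂ) g.denom := by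
      conv_rhs => rw [← RatFunc.num_div_denom g]
      rw [RatFunc.num_div_denom g]
      conv_rhs => rw [← RatFunc.num_div_denom g]
      field_simp
      rw [RatFunc.num_div_denom g]
    rw [h3, h4, hg]
    ring
  have hX0 : (Polynomial.X + 1 : Polynomial ℂ) ≠ 0 := by
    intro h0
    have := congrArg (Polynomial.eval 0) h0
    simp at this
  have key2 : f.num * g.denom = g.num * ((Polynomial.X + 1) * d) := by
    have : (Polynomial.X + 1) * (f.num * g.denom) =
        (Polynomial.X + 1) * (g.num * ((Polynomial.X + 1) * d)) := by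
      rw [← mul_assoc, key, hd]
      ring
    exact mul_left_cancel₀ hX0 this
  have e1 : f.num.eval (-1) = 0 := by
    have := congrArg (Polynomial.eval (-1)) key2
    simp only [Polynomial.eval_mul, Polynomial.eval_add, Polynomial.eval_X, Polynomial.eval_one,
      neg_add_cancel, zero_mul, mul_zero] at this
    exact (mul_eq_zero.1 this).resolve_right h
  have e2 : f.denom.eval (-1) = 0 := by
    rw [hd]
    simp
  obtain ⟨a, b, hab⟩ := RatFunc.isCoprime_num_denom f
  have := congrArg (Polynomial.eval (-1)) hab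
  simp [e1, e2] at this

/-! ### The graph -/

theorem handshake (G : Graph) (hE : ∀ e ∈ G.E, e.1 < e.2 ∧ e.2 < G.size) :
    ∑ p ∈ range G.size, (Graph.edges G p).card = 2 * G.E.card := by
  classical
  have h1 : ∀ p, (Graph.edges G p).card = ∑ e ∈ G.E, if e.1 = p ∨ e.2 = p then 1 else 0 := by
    intro p
    unfold Graph.edges
    rw [Finset.card_filter]
  rw [Finset.sum_congr rfl fun p _ => h1 p, Finset.sum_comm]
  have h2 : ∀ e ∈ G.E, ∑ p ∈ range G.size, (if e.1 = p ∨ e.2 = p then 1 else 0) = 2 := by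
    intro e he
    obtain ⟨h3, h4⟩ := hE e he
    rw [← Finset.card_filter]
    have : (range G.size).filter (fun p => e.1 = p ∨ e.2 = p) = {e.1, e.2} := by
      ext p
      simp only [mem_filter, mem_range, mem_insert, mem_singleton]
      constructor
      · rintro ⟨_, h | h⟩
        · exact Or.inl h.symm
        · exact Or.inr h.symm
      · rintro (h | h)
        · exact ⟨by omega, Or.inl h.symm⟩
        · exact ⟨by omega, Or.inr h.symm⟩
    rw [this, Finset.card_pair (by omega)]
  rw [Finset.sum_congr rfl h2, Finset.sum_const, smul_eq_mul, mul_comm]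

theorem mem_nb_edge (C : CurveGerm) {p : ℕ} {e : ℕ × ℕ} (he : e ∈ Graph.edges C.G p) :
    (C.G.N (Graph.oth p e), C.G.ν (Graph.oth p e)) ∈ C.nb p := by
  unfold CurveGerm.nb
  rw [Multiset.mem_add]
  exact Or.inl (Multiset.mem_map.2 ⟨e, he, rfl⟩)

theorem mem_nb_branch (C : CurveGerm) {p b : ℕ} (hb : b ∈ C.B p) : (b, 1) ∈ C.nb p := by
  unfold CurveGerm.nb
  rw [Multiset.mem_add]
  refine Or.inr ?_
  rw [Multiset.mem_coe]
  exact List.mem_map.2 ⟨b, hb, rfl⟩

end C6

open C6 Finset in
theorem curveOne : CurveOne := by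
  classical
  intro hT hN hV hS C
  obtain ⟨hsize, hE, hcard, hconn, -⟩ := hT C.G C.blow
  obtain ⟨hpos, ⟨p₀, hp₀, hc₀⟩, -, -⟩ := hN C.G C.blow
  have hval : ∀ p, C.val p = (Graph.edges C.G p).card + (C.B p).length := fun p => rfl
  -- number of branches
  have hbr : 0 < C.br := by
    have h1 : (C.B p₀).length ≠ 0 := by
      intro h0
      have h2 := C.sum p₀ hp₀
      rw [List.length_eq_zero_iff.1 h0] at h2
      simp at h2
      omega
    have h2 : (C.B p₀).length ≤ C.br :=
      Finset.single_le_sum (f := fun p => (C.B p).length) (fun _ _ => Nat.zero_le _)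
        (mem_range.2 hp₀)
    omega
  have hmult : C.mult 1 = 2 - C.br := by
    unfold CurveGerm.mult
    rw [Finset.sum_congr (g := fun p => 2 - (C.val p : ℤ)) rfl fun p _ => by simp]
    rw [Finset.sum_sub_distrib, Finset.sum_const, card_range]
    have h1 : ∑ p ∈ range C.G.size, C.val p = 2 * C.G.E.card + C.br := by
      rw [Finset.sum_congr rfl fun p _ => hval p, Finset.sum_add_distrib, handshake C.G hE]
      rfl
    have h2 : ∑ p ∈ range C.G.size, (C.val p : ℤ) = 2 * (C.G.E.card : ℤ) + C.br := by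
      exact_mod_cast h1
    rw [h2, ← hcard]
    simp
    ring
  refine ⟨hbr, hmult, fun hne => ?_, fun h1 => ?_⟩
  · refine Or.inl ?_
    rw [hmult]
    simp only [if_true]
    have : (C.br : ℤ) ≠ 1 := by exact_mod_cast hne
    omega
  · -- the set of vertices of ratio `1` with at least two neighbours is empty
    have hexp : Complex.exp (2 * Real.pi * Complex.I * (-1)) = 1 := by
      have : (2 * Real.pi * Complex.I * (-1) : ℂ) = -(2 * Real.pi * Complex.I) := by ring
      rw [this, Complex.exp_neg, Complex.exp_two_pi_mul_I, inv_one]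
    have hrat : ∀ {a b : ℕ}, (a : ℂ) * (-1) + b = 0 ↔ a = b := by
      intro a b
      constructor
      · intro h
        have : (a : ℂ) = b := by linear_combination -h
        exact_mod_cast this
      · intro h
        rw [h]
        ring
    have hstep : ∀ p < C.G.size, C.G.N p = C.G.ν p → 2 ≤ C.val p → ∀ e ∈ Graph.edges C.G p,
        C.G.N (Graph.oth p e) = C.G.ν (Graph.oth p e) ∧ 2 ≤ C.val (Graph.oth p e) := by
      intro p hp hpe hv e he
      obtain ⟨h2, h3⟩ := hS hT hN hV C p (-1) hp hv (hrat.2 hpe)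
      refine ⟨hrat.1 (h2 _ (mem_nb_edge C he) (by rw [hexp, one_pow])), h3 e he ?_⟩
      rw [hexp, one_pow]
    have hempty : ∀ p < C.G.size, C.G.N p = C.G.ν p → ¬ 2 ≤ C.val p := by
      intro p hp hpe hv
      have hall := hconn {q | C.G.N q = C.G.ν q ∧ 2 ≤ C.val q} ⟨p, ⟨hpe, hv⟩, hp⟩ (by
        intro e he
        obtain ⟨h2, h3⟩ := hE e he
        have he1 : e ∈ Graph.edges C.G e.1 := by
          unfold Graph.edges
          rw [mem_filter]
          exact ⟨he, Or.inl rfl⟩
        have he2 : e ∈ Graph.edges C.G e.2 := by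
          unfold Graph.edges
          rw [mem_filter]
          exact ⟨he, Or.inr rfl⟩
        have ho1 : Graph.oth e.1 e = e.2 := by
          unfold Graph.oth
          rw [if_pos rfl]
        have ho2 : Graph.oth e.2 e = e.1 := by
          unfold Graph.oth
          rw [if_neg (by omega)]
        constructor
        · rintro ⟨h4, h5⟩
          have := hstep e.1 (by omega) h4 h5 e he1
          rwa [ho1] at this
        · rintro ⟨h4, h5⟩
          have := hstep e.2 (by omega) h4 h5 e he2
          rwa [ho2] at this)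
      have h2 : C.mult 1 ≤ 0 := by
        unfold CurveGerm.mult
        refine Finset.sum_nonpos fun q hq => ?_
        have := (hall q (mem_range.1 hq)).2
        rw [if_pos (one_pow _)]
        have : (2 : ℤ) ≤ C.val q := by exact_mod_cast this
        omega
      rw [hmult, h1] at h2
      norm_num at h2
    -- a neighbour of ratio `1`
    have hnb : ∀ p < C.G.size, C.G.N p = C.G.ν p → ∀ y ∈ C.nb p, y.1 ≠ y.2 := by
      intro p hp hpe y hy hy12
      obtain ⟨-, hv, -, h3, -⟩ := hV hT hN C p hp
      obtain ⟨-, -, -, -, h4⟩ := h3 y hy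
      have hv1 : C.val p = 1 := by
        have := hempty p hp hpe
        omega
      have h5 := h4 hv1
      rw [hpe, hy12] at h5
      have h6 := (hpos p hp).2
      have : (0 : ℤ) < C.G.ν p := by exact_mod_cast h6
      nlinarith
    apply simple_of_reg
    unfold Ze
    refine reg_sum _ _ fun t ht => ?_
    rw [if_pos fun q _ => one_dvd _]
    have hmain : Reg ((RatFunc.X + 1) * (t.2.map fac).prod) := by
      unfold CurveGerm.strata at ht
      rw [List.mem_append, List.mem_append] at ht
      rcases ht with (ht | ht) | ht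
      · rw [List.mem_map] at ht
        obtain ⟨p, hp, rfl⟩ := ht
        rw [List.mem_range] at hp
        simp only [List.map_cons, List.map_nil, List.prod_cons, List.prod_nil, mul_one]
        exact reg_X1_fac (hpos p hp).1
      · rw [List.mem_map] at ht
        obtain ⟨e, he, rfl⟩ := ht
        rw [Finset.mem_toList] at he
        obtain ⟨h2, h3⟩ := hE e he
        simp only [List.map_cons, List.map_nil, List.prod_cons, List.prod_nil, mul_one]
        refine reg_X1_fac2 (hpos e.1 (by omega)).1 (hpos e.2 h3).1 ?_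
        rintro ⟨h4, h5⟩
        have he1 : e ∈ Graph.edges C.G e.1 := by
          unfold Graph.edges
          rw [mem_filter]
          exact ⟨he, Or.inl rfl⟩
        have ho1 : Graph.oth e.1 e = e.2 := by
          unfold Graph.oth
          rw [if_pos rfl]
        have h6 := hnb e.1 (by omega) h4 _ (mem_nb_edge C he1)
        rw [ho1] at h6
        exact h6 h5
      · rw [List.mem_flatMap] at ht
        obtain ⟨p, hp, ht⟩ := ht
        rw [List.mem_map] at ht
        obtain ⟨b, hb, rfl⟩ := ht
        rw [List.mem_range] at hp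
        simp only [List.map_cons, List.map_nil, List.prod_cons, List.prod_nil, mul_one]
        refine reg_X1_fac2 (hpos p hp).1 (C.pos p hp b hb) ?_
        rintro ⟨h4, h5⟩
        exact hnb p hp h4 _ (mem_nb_branch C hb) h5
    have heq : (t.2.map (fun q => 1 / (RatFunc.C (q.1 : ℂ) * RatFunc.X + RatFunc.C (q.2 : ℂ)))).prod
        = (t.2.map fac).prod := rfl
    rw [heq, mul_left_comm]
    exact (reg_C _).mul hmain

end Comp

end Mono
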